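import Pool.Agent.H83.G.Targets3
import Pool.Agent.H93.BD.Targets2
import Pool.Agent.H18.BD.RES
import Pool.Agent.H18.BD.BG

set_option autoImplicit false

open MeasureTheory Set
open scoped ENNReal NNReal RealInnerProductSpace

namespace Pool.Agent.H93.G.BDZ

open Pool.Agent.H83.G

abbrev X (m : ℕ) := Pool.Agent.H93.BD.X m
noncomputable abbrev FI {m : ℕ} := @Pool.Agent.H93.BD.FI m

/-- scalings -/
noncomputable def Sc {m : ℕ} (r s : ℝ) : X m →ₗ[ℝ] X m where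
  toFun z := (r • z.1, s * z.2)
  map_add' x y := by
    refine Prod.ext ?_ ?_
    · simp
    · simp only [Prod.snd_add]; ring
  map_smul' c x := by
    refine Prod.ext ?_ ?_
    · simp only [Prod.smul_fst, RingHom.id_apply]; rw [smul_comm]
    · simp only [Prod.smul_snd, smul_eq_mul, RingHom.id_apply]; ring

lemma Sc_apply {m : ℕ} (r s : ℝ) (z : X m) : Sc r s z = (r • z.1, s * z.2) := rfl

lemma Sc_inv {m : ℕ} {r s : ℝ} (hr : r ≠ 0) (hs : s ≠ 0) (z : X m) :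
    Sc r s (Sc r⁻¹ s⁻¹ z) = z := by
  rw [Sc_apply, Sc_apply]
  refine Prod.ext ?_ ?_
  · show r • r⁻¹ • z.1 = z.1
    rw [smul_smul, mul_inv_cancel₀ hr, one_smul]
  · show s * (s⁻¹ * z.2) = z.2
    rw [← mul_assoc, mul_inv_cancel₀ hs, one_mul]

lemma Sc_inv' {m : ℕ} {r s : ℝ} (hr : r ≠ 0) (hs : s ≠ 0) (z : X m) :
    Sc r⁻¹ s⁻¹ (Sc r s z) = z := by
  have := Sc_inv (m := m) (inv_ne_zero hr) (inv_ne_zero hs) z
  simpa using this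

lemma e_add (x y : ℝ) : e (x + y) = e x * e y := by
  unfold e
  rw [← Complex.exp_add]
  congr 1
  push_cast
  ring

lemma norm_e (x : ℝ) : ‖e x‖ = 1 := by
  unfold e
  exact Complex.norm_exp_ofReal_mul_I _

lemma e_eq_ph {m : ℕ} (z : X m) (y : Pool.Agent.H83.G.E m) (w : ℝ) :
    e (⟪y, z.1⟫ + w * z.2) = Pool.Agent.H93.BD.ph z ((2 * Real.pi) • y, 2 * Real.pi * w) := by
  unfold e Pool.Agent.H93.BD.ph
  congr 2
  rw [real_inner_smul_right, real_inner_comm]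
  push_cast
  ring

/-- partial integration in the first variable -/
noncomputable def hh {m : ℕ} (G : Z m → ℂ) (v : ℝ) (z : X m) : ℂ :=
  ∫ a : ℝ, e (v * a) * G (a, z.1, z.2)

lemma TC_integrable {m : ℕ} {G : Z m → ℂ} (hG : TC G) : Integrable G :=
  hG.1.continuous.integrable_of_hasCompactSupport hG.2

lemma integrable_e_mul {m : ℕ} {G : Z m → ℂ} (hG : Integrable G) {f : Z m → ℝ}
    (hf : Continuous f) : Integrable (fun ζ => e (f ζ) * G ζ) := by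
  refine hG.bdd_mul (c := 1) ?_ ?_
  · refine Continuous.aestronglyMeasurable ?_
    unfold e
    fun_prop
  · exact Filter.Eventually.of_forall fun ζ => (norm_e _).le

lemma hh_integrable {m : ℕ} {G : Z m → ℂ} (hG : TC G) (v : ℝ) : Integrable (hh G v) := by
  have h1 : Integrable (fun ζ : Z m => e (v * ζ.1) * G ζ) :=
    integrable_e_mul (TC_integrable hG) (by fun_prop)
  exact h1.integral_prod_right

lemma TF_slice {m : ℕ} {G : Z m → ℂ} (hG : TC G) (v : ℝ) (y : Pool.Agent.H83.G.E m) (w : ℝ) :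
    TF G (v, y, w) = FI (hh G v) ((2 * Real.pi) • y, 2 * Real.pi * w) := by
  have h0 : Integrable (fun ζ : Z m => e (Pool.Agent.H83.G.ph (v, y, w) ζ) * G ζ) := by
    refine integrable_e_mul (TC_integrable hG) ?_
    unfold Pool.Agent.H83.G.ph
    fun_prop
  have h1 : TF G (v, y, w) = ∫ z : X m, ∫ a : ℝ,
      e (Pool.Agent.H83.G.ph (v, y, w) (a, z)) * G (a, z) := by
    unfold TF
    exact integral_prod_symm _ h0
  rw [h1]
  show _ = ∫ z, hh G v z * Pool.Agent.H93.BD.ph z _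
  refine integral_congr_ae (Filter.Eventually.of_forall fun z => ?_)
  simp only
  unfold hh
  rw [← e_eq_ph, ← integral_mul_const]
  refine integral_congr_ae (Filter.Eventually.of_forall fun a => ?_)
  simp only
  have h2 : Pool.Agent.H83.G.ph (v, y, w) (a, z) = v * a + (⟪y, z.1⟫ + w * z.2) := by
    unfold Pool.Agent.H83.G.ph
    simp only
    ring
  rw [h2, e_add]
  ring


/-- the slices as Fourier integrals for the paraboloid -/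
lemma slice_FI {m : ℕ} {a₀ : ℝ} (ha₀ : 0 < a₀) : ∃ J : ℝ, 0 < J ∧ ∀ (G : Z m → ℂ), TC G →
    ∀ v : ℝ, Integrable (fun z : X m => (J : ℂ)⁻¹ * hh G v (Sc 1 a₀⁻¹ z)) ∧
      ∀ p : X m, TF G (v, p.1, p.2) =
        FI (fun z : X m => (J : ℂ)⁻¹ * hh G v (Sc 1 a₀⁻¹ z))
          (Sc (2 * Real.pi) (2 * Real.pi / a₀) p) := by
  have hne : (1 : ℝ) ≠ 0 := one_ne_zero
  have h11 : (1 : ℝ)⁻¹ = 1 := inv_one
  obtain ⟨J, hJ, hJ1, -, -⟩ := Pool.Agent.H18.BD.RES.aff (m := m) (Sc 1 a₀) (Sc 1 a₀⁻¹)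
    (fun z => by have := Sc_inv (m := m) hne ha₀.ne' z; rwa [h11] at this)
    (fun z => by have := Sc_inv' (m := m) hne ha₀.ne' z; rwa [h11] at this) 0
  obtain ⟨J', hJ', -, -, hJ3⟩ := Pool.Agent.H18.BD.RES.aff (m := m) (Sc 1 a₀⁻¹) (Sc 1 a₀)
    (fun z => by have := Sc_inv' (m := m) hne ha₀.ne' z; rwa [h11] at this)
    (fun z => by have := Sc_inv (m := m) hne ha₀.ne' z; rwa [h11] at this) 0
  refine ⟨J, hJ, fun G hG v => ⟨?_, fun p => ?_⟩⟩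
  · have h1 := hJ3 (hh G v) (hh_integrable hG v)
    simp only [zero_add] at h1
    exact h1.const_mul _
  · rw [TF_slice hG]
    show ∫ z, hh G v z * Pool.Agent.H93.BD.ph z _ = ∫ z, _ * Pool.Agent.H93.BD.ph z _
    rw [hJ1 (fun z => ((J : ℂ)⁻¹ * hh G v (Sc 1 a₀⁻¹ z)) *
      Pool.Agent.H93.BD.ph z (Sc (2 * Real.pi) (2 * Real.pi / a₀) p)), ← integral_const_mul]
    refine integral_congr_ae (Filter.Eventually.of_forall fun z => ?_)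
    simp only [zero_add]
    have h2 : Sc (m := m) 1 a₀⁻¹ (Sc 1 a₀ z) = z := by
      have := Sc_inv' (m := m) hne ha₀.ne' z
      rwa [h11] at this
    rw [h2]
    have h3 : Pool.Agent.H93.BD.ph (Sc 1 a₀ z) (Sc (2 * Real.pi) (2 * Real.pi / a₀) p) =
        Pool.Agent.H93.BD.ph z ((2 * Real.pi) • p.1, 2 * Real.pi * p.2) := by
      unfold Pool.Agent.H93.BD.ph
      congr 2
      rw [Sc_apply, Sc_apply]
      simp only [one_smul]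
      field_simp
    rw [h3]
    have h4 : (J : ℂ) ≠ 0 := by exact_mod_cast hJ.ne'
    field_simp

/-- support of the slices -/
lemma slice_supp {m : ℕ} {G : Z m → ℂ} {v : ℝ} {J a₀ : ℝ} {z : X m}
    (h : (J : ℂ)⁻¹ * hh G v (Sc 1 a₀⁻¹ z) ≠ 0) : ∃ a : ℝ, G (a, z.1, a₀⁻¹ * z.2) ≠ 0 := by
  by_contra hcon
  push Not at hcon
  apply h
  have h1 : hh G v (Sc 1 a₀⁻¹ z) = 0 := by
    unfold hh
    rw [Sc_apply]
    simp only [one_smul, hcon, mul_zero, integral_zero]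
  rw [h1, mul_zero]

/-- frequency geometry -/
lemma geom {m : ℕ} {K a₀ D a b : ℝ} {ξ c : Pool.Agent.H83.G.E m} (hK : 1 ≤ K) (ha₀ : 1 / 4 ≤ a₀)
    (ha₀' : a₀ ≤ 8) (hD : 1 ≤ D) (hc : ‖c‖ ≤ D) (h1 : |a - a₀| ≤ D * K⁻¹ ^ 2) (h2 : 1 / 4 ≤ a)
    (h3 : a ≤ 8) (h4 : ‖a⁻¹ • ξ - c‖ ≤ D * K⁻¹) (h5 : |a₀⁻¹ * b - ‖ξ‖ ^ 2 / a| ≤ D * K⁻¹ ^ 2) :
    ‖ξ - a₀ • c‖ ≤ (9 * D ^ 2) * K⁻¹ ∧ |b - ‖ξ‖ ^ 2| ≤ (33000 * D ^ 3) * K⁻¹ ^ 2 := by
  have hK0 : 0 < K := by linarith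
  have hKi : 0 < K⁻¹ := inv_pos.2 hK0
  have hKi1 : K⁻¹ ≤ 1 := inv_le_one_of_one_le₀ hK
  have hKi2 : K⁻¹ ^ 2 ≤ K⁻¹ := by nlinarith
  have ha0 : 0 < a := by linarith
  have ha₀0 : 0 < a₀ := by linarith
  have e1 : ξ - a₀ • c = a • (a⁻¹ • ξ - c) + (a - a₀) • c := by
    rw [smul_sub, smul_smul, mul_inv_cancel₀ ha0.ne', one_smul, sub_smul]
    abel
  have hξ : ‖ξ‖ ≤ 16 * D := by
    have e2 : ξ = a • (a⁻¹ • ξ - c) + a • c := by
      rw [smul_sub, smul_smul, mul_inv_cancel₀ ha0.ne', one_smul]; abel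
    rw [e2]
    refine (norm_add_le _ _).trans ?_
    rw [norm_smul, norm_smul, Real.norm_of_nonneg ha0.le]
    have : D * K⁻¹ ≤ D := by nlinarith
    nlinarith [norm_nonneg (a⁻¹ • ξ - c), norm_nonneg c]
  constructor
  · rw [e1]
    refine (norm_add_le _ _).trans ?_
    rw [norm_smul, norm_smul, Real.norm_of_nonneg ha0.le, Real.norm_eq_abs]
    have i1 : a * ‖a⁻¹ • ξ - c‖ ≤ 8 * (D * K⁻¹) :=
      mul_le_mul h3 h4 (norm_nonneg _) (by norm_num)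
    have i2 : |a - a₀| * ‖c‖ ≤ (D * K⁻¹ ^ 2) * D :=
      mul_le_mul h1 hc (norm_nonneg _) (by positivity)
    have i3 : 8 * (D * K⁻¹) ≤ 8 * D ^ 2 * K⁻¹ := by
      have : D ≤ D ^ 2 := by nlinarith
      nlinarith
    have i4 : (D * K⁻¹ ^ 2) * D ≤ D ^ 2 * K⁻¹ := by
      have : 0 ≤ D ^ 2 := by positivity
      nlinarith
    linarith
  · have e3 : b - ‖ξ‖ ^ 2 = a₀ * (a₀⁻¹ * b - ‖ξ‖ ^ 2 / a) + ‖ξ‖ ^ 2 * ((a₀ - a) / a) := by
      field_simp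
      ring
    rw [e3]
    refine (abs_add_le _ _).trans ?_
    rw [abs_mul, abs_mul, abs_of_pos ha₀0, abs_of_nonneg (by positivity : (0 : ℝ) ≤ ‖ξ‖ ^ 2),
      abs_div, abs_of_pos ha0, abs_sub_comm a₀ a]
    have i1 : a₀ * |a₀⁻¹ * b - ‖ξ‖ ^ 2 / a| ≤ 8 * (D * K⁻¹ ^ 2) :=
      mul_le_mul ha₀' h5 (abs_nonneg _) (by norm_num)
    have i2 : |a - a₀| / a ≤ 4 * (D * K⁻¹ ^ 2) := by
      rw [div_le_iff₀ ha0]
      have : 0 ≤ D * K⁻¹ ^ 2 := by positivity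
      nlinarith
    have i3 : ‖ξ‖ ^ 2 ≤ (16 * D) ^ 2 := by
      apply pow_le_pow_left₀ (norm_nonneg _) hξ
    have i4 : ‖ξ‖ ^ 2 * (|a - a₀| / a) ≤ (16 * D) ^ 2 * (4 * (D * K⁻¹ ^ 2)) :=
      mul_le_mul i3 i2 (by positivity) (by positivity)
    have i5 : 8 * (D * K⁻¹ ^ 2) ≤ 8 * (D ^ 3 * K⁻¹ ^ 2) := by
      have : D ≤ D ^ 3 := by nlinarith [mul_pos (show (0 : ℝ) < D by linarith) (show (0 : ℝ) < D by linarith)]
      have h0 : 0 ≤ K⁻¹ ^ 2 := by positivity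
      nlinarith
    have i6 : 0 ≤ D ^ 3 * K⁻¹ ^ 2 := by positivity
    nlinarith

lemma cover_X (m : ℕ) : ∃ Q : Finset (X m), (∀ q ∈ Q, ‖q‖ ≤ 32) ∧
    ∀ u : X m, ‖u‖ ≤ 32 → ∃ q ∈ Q, ‖u - q‖ ≤ 1 := by
  obtain ⟨t, ht1, ht2, ht3⟩ := (isCompact_closedBall (0 : X m) 32).finite_cover_balls
    (e := 1) one_pos
  refine ⟨ht2.toFinset, fun q hq => ?_, fun u hu => ?_⟩
  · have := ht1 (ht2.mem_toFinset.1 hq)
    simpa using this
  · have h1 : u ∈ Metric.closedBall (0 : X m) 32 := by simpa using hu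
    have h2 := ht3 h1
    simp only [mem_iUnion] at h2
    obtain ⟨q, hq, hq2⟩ := h2
    refine ⟨q, ht2.mem_toFinset.2 hq, ?_⟩
    rw [Metric.mem_ball, dist_eq_norm] at hq2
    exact hq2.le

lemma cover_E (m : ℕ) : ∃ Q : Finset (Pool.Agent.H83.G.E m),
    ∀ u : Pool.Agent.H83.G.E m, ‖u‖ ≤ 4 → ∃ q ∈ Q, ‖u - q‖ ≤ 1 := by
  obtain ⟨t, ht1, ht2, ht3⟩ := (isCompact_closedBall (0 : Pool.Agent.H83.G.E m) 4).finite_cover_balls
    (e := 1) one_pos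
  refine ⟨ht2.toFinset, fun u hu => ?_⟩
  have h1 : u ∈ Metric.closedBall (0 : Pool.Agent.H83.G.E m) 4 := by simpa using hu
  have h2 := ht3 h1
  simp only [mem_iUnion] at h2
  obtain ⟨q, hq, hq2⟩ := h2
  refine ⟨q, ht2.mem_toFinset.2 hq, ?_⟩
  rw [Metric.mem_ball, dist_eq_norm] at hq2
  exact hq2.le

/-- multiplicity at the scale of the dyadic theorem -/
lemma mult {m : ℕ} {K a₀ D : ℝ} {ι : Type} {T : Finset ι} {c : ι → Pool.Agent.H83.G.E m}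
    (Q : Finset (Pool.Agent.H83.G.E m))
    (hQ : ∀ u : Pool.Agent.H83.G.E m, ‖u‖ ≤ 4 → ∃ q ∈ Q, ‖u - q‖ ≤ 1)
    (hK : 1 ≤ K) (ha₀ : 1 / 4 ≤ a₀)
    (hm : ∀ (y : Pool.Agent.H83.G.E m), ∀ J ⊆ T, (∀ t ∈ J, ‖y - c t‖ ≤ K⁻¹) → (J.card : ℝ) ≤ D)
    {a : ℕ} (ha : K ≤ 2 ^ a) (ξ : Pool.Agent.H83.G.E m) (T' : Finset ι) (hT' : T' ⊆ T)
    (h : ∀ t ∈ T', ‖ξ - a₀ • c t‖ ≤ 1 / 2 ^ a) : T'.card ≤ Q.card * ⌈D⌉₊ := by
  classical
  have hK0 : 0 < K := by linarith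
  have ha₀0 : 0 < a₀ := by linarith
  have hsub : T' ⊆ Q.biUnion (fun q => T'.filter (fun t => ‖(a₀⁻¹ • ξ + K⁻¹ • q) - c t‖ ≤ K⁻¹)) := by
    intro t ht
    have h1 : ‖K • (c t - a₀⁻¹ • ξ)‖ ≤ 4 := by
      have h2 : c t - a₀⁻¹ • ξ = -(a₀⁻¹ • (ξ - a₀ • c t)) := by
        rw [smul_sub, smul_smul, inv_mul_cancel₀ ha₀0.ne', one_smul]; abel
      rw [norm_smul, h2, norm_neg, norm_smul, Real.norm_of_nonneg hK0.le, Real.norm_of_nonneg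
        (inv_pos.2 ha₀0).le]
      have h3 := h t ht
      have h4 : (1 : ℝ) / 2 ^ a ≤ K⁻¹ := by
        rw [one_div]; exact inv_anti₀ hK0 ha
      have h5 : a₀⁻¹ ≤ 4 := by
        rw [inv_le_comm₀ ha₀0 (by norm_num)]; linarith
      calc K * (a₀⁻¹ * ‖ξ - a₀ • c t‖) ≤ K * (4 * K⁻¹) := by
            gcongr
            exact h3.trans h4
        _ = 4 := by field_simp
    obtain ⟨q, hq, hq2⟩ := hQ _ h1
    refine Finset.mem_biUnion.2 ⟨q, hq, Finset.mem_filter.2 ⟨ht, ?_⟩⟩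
    have h6 : (a₀⁻¹ • ξ + K⁻¹ • q) - c t = -(K⁻¹ • (K • (c t - a₀⁻¹ • ξ) - q)) := by
      rw [smul_sub, smul_smul, inv_mul_cancel₀ hK0.ne', one_smul]; abel
    rw [h6, norm_neg, norm_smul, Real.norm_of_nonneg (inv_pos.2 hK0).le]
    calc K⁻¹ * ‖K • (c t - a₀⁻¹ • ξ) - q‖ ≤ K⁻¹ * 1 := by gcongr
      _ = K⁻¹ := mul_one _
  refine (Finset.card_le_card hsub).trans ?_
  refine Finset.card_biUnion_le_card_mul _ _ _ fun q _ => ?_
  have h7 := hm (a₀⁻¹ • ξ + K⁻¹ • q) (T'.filter (fun t => ‖(a₀⁻¹ • ξ + K⁻¹ • q) - c t‖ ≤ K⁻¹))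
    ((Finset.filter_subset _ _).trans hT') (fun t ht => (Finset.mem_filter.1 ht).2)
  exact_mod_cast h7.trans (Nat.le_ceil D)

lemma scale_sum {ι : Type} (T : Finset ι) {P : ℝ} (hP : 2 ≤ P) (c : ℝ≥0∞) (b : ι → ℝ≥0∞) :
    c * (∑ t ∈ T, b t ^ (2 / P)) ^ (P / 2) = (∑ t ∈ T, (c * b t) ^ (2 / P)) ^ (P / 2) := by
  have hP0 : 0 < P := by linarith
  have h1 : ∀ t ∈ T, (c * b t) ^ (2 / P) = c ^ (2 / P) * b t ^ (2 / P) := fun t _ =>
    ENNReal.mul_rpow_of_nonneg _ _ (by positivity)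
  rw [Finset.sum_congr rfl h1, ← Finset.mul_sum, ENNReal.mul_rpow_of_nonneg _ _ (by positivity),
    ← ENNReal.rpow_mul]
  have h2 : 2 / P * (P / 2) = 1 := by field_simp
  rw [h2, ENNReal.rpow_one]

/-- the weight in the variables `(y, w)` -/
noncomputable def W2 {m : ℕ} (N : ℕ) (p : X m) : ℝ≥0∞ := ENNReal.ofReal (((1 + ‖p‖) ^ N)⁻¹)

lemma wt_le {m : ℕ} (N : ℕ) {R : ℝ} (hR : 0 < R) (u q w : X m) (hq : ‖q‖ ≤ 32)
    (hw : ‖w‖ ≤ 8 * ‖u‖) :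
    Pool.Agent.H93.BD.wt N R (R • (u - q)) ≤ ENNReal.ofReal (257 ^ N) * W2 N w := by
  unfold Pool.Agent.H93.BD.wt W2
  rw [← ENNReal.ofReal_mul (by positivity)]
  apply ENNReal.ofReal_le_ofReal
  have h1 : ‖(R • (u - q)).1‖ / R = ‖(u - q).1‖ := by
    rw [Prod.smul_fst, norm_smul, Real.norm_of_nonneg hR.le]
    field_simp
  have h2 : |(R • (u - q)).2| / R = |(u - q).2| := by
    rw [Prod.smul_snd, smul_eq_mul, abs_mul, abs_of_pos hR]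
    field_simp
  rw [h1, h2]
  have h3 : ‖u - q‖ = max ‖(u - q).1‖ |(u - q).2| := rfl
  have h4 : 1 + ‖w‖ ≤ 257 * ((1 + ‖(u - q).1‖) * (1 + |(u - q).2|)) := by
    have h5 : ‖u‖ ≤ ‖u - q‖ + ‖q‖ := by
      have := norm_add_le (u - q) q
      simpa using this
    have h6 : ‖u - q‖ ≤ ‖(u - q).1‖ + |(u - q).2| := by
      rw [h3]
      exact max_le (by linarith [abs_nonneg (u - q).2]) (by linarith [norm_nonneg (u - q).1])
    have h7 : 0 ≤ ‖(u - q).1‖ * |(u - q).2| := by positivity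
    nlinarith [norm_nonneg (u - q).1, abs_nonneg (u - q).2]
  rw [← mul_inv, ← mul_pow]
  have hA : 0 < (1 + ‖(u - q).1‖) * (1 + |(u - q).2|) := by positivity
  have hB : 0 < 1 + ‖w‖ := by positivity
  rw [inv_eq_one_div, div_le_iff₀ (by positivity)]
  have h8 : (1 + ‖w‖) ^ N ≤ (257 * ((1 + ‖(u - q).1‖) * (1 + |(u - q).2|))) ^ N :=
    pow_le_pow_left₀ hB.le h4 N
  rw [mul_pow] at h8
  calc (1 : ℝ) = (1 + ‖w‖) ^ N * ((1 + ‖w‖) ^ N)⁻¹ := by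
        rw [mul_inv_cancel₀]; positivity
    _ ≤ (257 ^ N * ((1 + ‖(u - q).1‖) * (1 + |(u - q).2|)) ^ N) * ((1 + ‖w‖) ^ N)⁻¹ := by gcongr
    _ = _ := by ring

lemma norm_Sc_le {m : ℕ} {r s c : ℝ} (hr : |r| ≤ c) (hs : |s| ≤ c) (z : X m) :
    ‖Sc r s z‖ ≤ c * ‖z‖ := by
  rw [Sc_apply]
  have h1 : ‖((r • z.1, s * z.2) : X m)‖ = max ‖r • z.1‖ |s * z.2| := rfl
  have h2 : ‖z‖ = max ‖z.1‖ |z.2| := rfl
  have h3 : ‖z.1‖ ≤ ‖z‖ := h2 ▸ le_max_left _ _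
  have h4 : |z.2| ≤ ‖z‖ := h2 ▸ le_max_right _ _
  have hc : 0 ≤ c := (abs_nonneg r).trans hr
  rw [h1]
  apply max_le
  · rw [norm_smul, Real.norm_eq_abs]
    exact mul_le_mul hr h3 (norm_nonneg _) hc
  · rw [abs_mul]
    exact mul_le_mul hs h4 (abs_nonneg _) hc

open Pool.Agent.H93.BD in
theorem fixv (hMAIN : Pool.Agent.H93.BD.T_MAIN) (hSCH : T_SCH) (m N : ℕ) (P ε D : ℝ) (hP : 2 ≤ P)
    (hmP : m * (P - 2) < 4) (hε : 0 < ε) (hD : 1 ≤ D) : ∃ C : ℝ, 0 < C ∧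
    ∀ (K a₀ : ℝ) (ι : Type) (T : Finset ι) (c : ι → Pool.Agent.H83.G.E m) (G : ι → Z m → ℂ)
    (x : X m) (v : ℝ), 1 ≤ K → 1 / 4 ≤ a₀ → a₀ ≤ 8 → (∀ t ∈ T, ‖c t‖ ≤ D) →
    (∀ (y : Pool.Agent.H83.G.E m), ∀ J ⊆ T, (∀ t ∈ J, ‖y - c t‖ ≤ K⁻¹) → (J.card : ℝ) ≤ D) →
    (∀ t ∈ T, TC (G t)) →
    (∀ t ∈ T, ∀ ζ, G t ζ ≠ 0 → |ζ.1 - a₀| ≤ D * K⁻¹ ^ 2 ∧ 1 / 4 ≤ ζ.1 ∧ ζ.1 ≤ 8 ∧
      ‖ζ.1⁻¹ • ζ.2.1 - c t‖ ≤ D * K⁻¹ ∧ |ζ.2.2 - ‖ζ.2.1‖ ^ 2 / ζ.1| ≤ D * K⁻¹ ^ 2) →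
    ∫⁻ p in {p : X m | ‖K⁻¹ ^ 2 • p - x‖ ≤ 1}, ‖∑ t ∈ T, TF (G t) (v, p.1, p.2)‖ₑ ^ P ≤
      ENNReal.ofReal (C * K ^ ε) * (∑ t ∈ T, (∫⁻ p : X m, ‖TF (G t) (v, p.1, p.2)‖ₑ ^ P *
        W2 N (K⁻¹ ^ 2 • p - x)) ^ (2 / P)) ^ (P / 2) := by
  classical
  have hP0 : 0 < P := by linarith
  obtain ⟨QE, hQE⟩ := cover_E m
  obtain ⟨Q, hQ32, hQ⟩ := cover_X m
  set C0 : ℝ := 132000 * D ^ 3 with hC0
  set R1 : ℝ := 8 * D with hR1
  set M : ℕ := QE.card * ⌈D⌉₊ with hM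
  obtain ⟨C1, hC1, hLoc⟩ := hMAIN m P hP hmP (ε / P) (by positivity) C0 R1 N M
  set C : ℝ := (Q.card + 1) * (C1 ^ P * 2 ^ ε) * 257 ^ N with hC
  refine ⟨C, by positivity, ?_⟩
  intro K a₀ ι T c G x v hK ha₀ ha₀' hc hm hTC hsupp
  have hK0 : 0 < K := by linarith
  have ha₀0 : 0 < a₀ := by linarith
  have hpi := Real.pi_pos
  have hpi2 := Real.pi_le_four
  have hpi3 := Real.pi_gt_three
  have hpi4 : Real.pi < 3.15 := Real.pi_lt_d2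
  obtain ⟨n, hn1, hn2⟩ := exists_nat_pow_near hK (one_lt_two)
  set a : ℕ := n + 1 with ha
  have haK : K ≤ 2 ^ a := hn2.le
  have haK2 : (2 : ℝ) ^ a ≤ 2 * K := by rw [ha, pow_succ]; linarith
  have h2a : (0 : ℝ) < 2 ^ a := by positivity
  have hKa : K⁻¹ ≤ 2 * (1 / 2 ^ a) := by
    rw [inv_eq_one_div, mul_one_div, div_le_div_iff₀ hK0 h2a]; linarith
  have h4a : (4 : ℝ) ^ a = (2 ^ a) ^ 2 := by
    rw [← pow_mul, mul_comm, pow_mul]; norm_num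
  have hK4 : K ^ 2 ≤ 4 ^ a := by rw [h4a]; exact pow_le_pow_left₀ hK0.le haK 2
  have h4K : (4 : ℝ) ^ a ≤ 4 * K ^ 2 := by
    rw [h4a]
    calc ((2 : ℝ) ^ a) ^ 2 ≤ (2 * K) ^ 2 := pow_le_pow_left₀ h2a.le haK2 2
      _ = 4 * K ^ 2 := by ring
  have h4a0 : (0 : ℝ) < 4 ^ a := by positivity
  obtain ⟨J, hJ, hslice⟩ := slice_FI (m := m) ha₀0
  -- the pieces
  set g : ι → X m → ℂ := fun t z => (J : ℂ)⁻¹ * hh (G t) v (Sc 1 a₀⁻¹ z) with hg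
  have hcap : ∀ t ∈ T, InCap C0 (1 / 2 ^ a) (a₀ • c t) (g t) := by
    intro t ht
    refine ⟨(hslice (G t) (hTC t ht) v).1, fun z hz => ?_⟩
    obtain ⟨b, hb⟩ := slice_supp hz
    obtain ⟨s1, s2, s3, s4, s5⟩ := hsupp t ht _ hb
    obtain ⟨g1, g2⟩ := geom hK ha₀ ha₀' hD (hc t ht) s1 s2 s3 s4 s5
    have hDD : 9 * D ^ 2 * 2 ≤ C0 := by
      rw [hC0]
      have : D ^ 2 ≤ D ^ 3 := by nlinarith [sq_nonneg D]
      nlinarith [sq_nonneg D]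
    constructor
    · refine g1.trans ?_
      calc 9 * D ^ 2 * K⁻¹ ≤ 9 * D ^ 2 * (2 * (1 / 2 ^ a)) := by gcongr
        _ = 9 * D ^ 2 * 2 * (1 / 2 ^ a) := by ring
        _ ≤ C0 * (1 / 2 ^ a) := by gcongr
    · refine g2.trans ?_
      calc 33000 * D ^ 3 * K⁻¹ ^ 2 ≤ 33000 * D ^ 3 * (2 * (1 / 2 ^ a)) ^ 2 := by
            gcongr
        _ = C0 * (1 / 2 ^ a) ^ 2 := by rw [hC0]; ring
  have hcen : ∀ t ∈ T, ‖a₀ • c t‖ ≤ R1 := by
    intro t ht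
    rw [norm_smul, Real.norm_of_nonneg ha₀0.le, hR1]
    exact mul_le_mul ha₀' (hc t ht) (norm_nonneg _) (by norm_num)
  have hmul : ∀ ξ : Pool.Agent.H93.BD.E m, ∀ T' ⊆ T, (∀ t ∈ T', ‖ξ - a₀ • c t‖ ≤ 1 / 2 ^ a) →
      T'.card ≤ M := fun ξ T' hT' h => mult QE hQE hK ha₀ hm haK ξ T' hT' h
  have hLoc' := hLoc a ι T (fun t => a₀ • c t) g hcen hcap hmul
  -- coordinates
  set r : ℝ := 2 * Real.pi with hr
  set s : ℝ := 2 * Real.pi / a₀ with hs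
  have hr0 : 0 < r := by positivity
  have hs0 : 0 < s := by positivity
  have hLL : ∀ z : X m, Sc r s (Sc r⁻¹ s⁻¹ z) = z := Sc_inv hr0.ne' hs0.ne'
  have hLL' : ∀ z : X m, Sc r⁻¹ s⁻¹ (Sc r s z) = z := Sc_inv' hr0.ne' hs0.ne'
  obtain ⟨J', hJ', -, hJ2, -⟩ := Pool.Agent.H18.BD.RES.aff (m := m) (Sc r⁻¹ s⁻¹) (Sc r s)
    hLL' hLL 0
  have hrs1 : |r| ≤ 26 := by rw [abs_of_pos hr0, hr]; linarith
  have hrs2 : |s| ≤ 26 := by
    rw [abs_of_pos hs0, hs, div_le_iff₀ ha₀0]; linarith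
  have hrs3 : |r⁻¹| ≤ 2 := by
    rw [abs_of_pos (inv_pos.2 hr0), inv_le_comm₀ hr0 (by norm_num), hr]; linarith
  have hrs4 : |s⁻¹| ≤ 2 := by
    rw [abs_of_pos (inv_pos.2 hs0), inv_le_comm₀ hs0 (by norm_num), hs, le_div_iff₀ ha₀0]
    linarith
  set x0 : X m := Sc r s (K ^ 2 • x) with hx0
  -- the two forms of the functions
  have hform : ∀ t ∈ T, ∀ p : X m, TF (G t) (v, p.1, p.2) = FI (g t) (Sc r s p) :=
    fun t ht p => (hslice (G t) (hTC t ht) v).2 p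
  have hsum : ∀ p : X m, ∑ t ∈ T, TF (G t) (v, p.1, p.2) = ∑ t ∈ T, FI (g t) (Sc r s p) :=
    fun p => Finset.sum_congr rfl fun t ht => hform t ht p
  set Reg : Set (X m) := {p : X m | ‖K⁻¹ ^ 2 • p - x‖ ≤ 1} with hReg
  have hRegm : MeasurableSet Reg := by
    apply measurableSet_le _ measurable_const
    fun_prop
  set F : X m → ℝ≥0∞ := fun z => ‖∑ t ∈ T, FI (g t) z‖ₑ ^ P with hF
  set RQ : X m → Set (X m) := fun q => {z : X m | ‖z.1 - (x0 + (4 : ℝ) ^ a • q).1‖ ≤ 4 ^ a ∧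
    |z.2 - (x0 + (4 : ℝ) ^ a • q).2| ≤ 4 ^ a} with hRQ
  have hRQm : ∀ q, MeasurableSet (RQ q) := by
    intro q
    have h1 : MeasurableSet {z : X m | ‖z.1 - (x0 + (4 : ℝ) ^ a • q).1‖ ≤ 4 ^ a} :=
      measurableSet_le (by fun_prop) measurable_const
    have h2 : MeasurableSet {z : X m | |z.2 - (x0 + (4 : ℝ) ^ a • q).2| ≤ 4 ^ a} :=
      measurableSet_le (by fun_prop) measurable_const
    exact h1.inter h2
  -- key geometry
  have hK2 : (K ^ 2) * (K⁻¹ ^ 2) = 1 := by field_simp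
  have hgeo : ∀ z : X m, z - x0 = Sc r s (K ^ 2 • (K⁻¹ ^ 2 • Sc r⁻¹ s⁻¹ z - x)) := by
    intro z
    rw [smul_sub, smul_smul, hK2, one_smul, map_sub, hLL]
  have hcov : ∀ z : X m, Reg.indicator (fun _ => (1 : ℝ≥0∞)) (Sc r⁻¹ s⁻¹ z) * F z ≤
      ∑ q ∈ Q, (RQ q).indicator F z := by
    intro z
    by_cases hz : Sc r⁻¹ s⁻¹ z ∈ Reg
    · rw [indicator_of_mem hz, one_mul]
      have h1 : ‖((4 : ℝ) ^ a)⁻¹ • (z - x0)‖ ≤ 32 := by
        rw [hgeo z, norm_smul, Real.norm_of_nonneg (inv_pos.2 h4a0).le]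
        have h2 : ‖Sc r s (K ^ 2 • (K⁻¹ ^ 2 • Sc r⁻¹ s⁻¹ z - x))‖ ≤ 26 * (K ^ 2 * 1) := by
          refine (norm_Sc_le hrs1 hrs2 _).trans ?_
          rw [norm_smul, Real.norm_of_nonneg (by positivity : (0 : ℝ) ≤ K ^ 2)]
          have : ‖K⁻¹ ^ 2 • Sc r⁻¹ s⁻¹ z - x‖ ≤ 1 := hz
          gcongr
        calc ((4 : ℝ) ^ a)⁻¹ * ‖Sc r s (K ^ 2 • (K⁻¹ ^ 2 • Sc r⁻¹ s⁻¹ z - x))‖
            ≤ ((4 : ℝ) ^ a)⁻¹ * (26 * (4 ^ a * 1)) := by
              gcongr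
              exact h2.trans (by gcongr)
          _ = 26 := by field_simp
          _ ≤ 32 := by norm_num
      obtain ⟨q, hq, hq2⟩ := hQ _ h1
      have h3 : z ∈ RQ q := by
        have h4 : z - (x0 + (4 : ℝ) ^ a • q) = (4 : ℝ) ^ a • (((4 : ℝ) ^ a)⁻¹ • (z - x0) - q) := by
          rw [smul_sub, smul_smul, mul_inv_cancel₀ h4a0.ne', one_smul]; abel
        have h5 : ‖z - (x0 + (4 : ℝ) ^ a • q)‖ ≤ 4 ^ a := by
          rw [h4, norm_smul, Real.norm_of_nonneg h4a0.le]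
          calc (4 : ℝ) ^ a * ‖((4 : ℝ) ^ a)⁻¹ • (z - x0) - q‖ ≤ 4 ^ a * 1 := by gcongr
            _ = 4 ^ a := mul_one _
        have h6 : ‖z - (x0 + (4 : ℝ) ^ a • q)‖ = max ‖(z - (x0 + (4 : ℝ) ^ a • q)).1‖
            |(z - (x0 + (4 : ℝ) ^ a • q)).2| := rfl
        rw [h6] at h5
        exact ⟨(le_max_left _ _).trans h5, (le_max_right _ _).trans h5⟩
      calc F z = (RQ q).indicator F z := (indicator_of_mem h3 F).symm
        _ ≤ _ := Finset.single_le_sum (f := fun q => (RQ q).indicator F z)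
            (fun _ _ => zero_le) hq
    · rw [indicator_of_notMem hz, zero_mul]
      exact zero_le
  -- the left side
  have hLHS : ∫⁻ p in Reg, ‖∑ t ∈ T, TF (G t) (v, p.1, p.2)‖ₑ ^ P ≤
      ENNReal.ofReal J' * ∑ q ∈ Q, ∫⁻ z in RQ q, F z := by
    rw [← lintegral_indicator hRegm]
    have h1 : ∀ p, Reg.indicator (fun p : X m => ‖∑ t ∈ T, TF (G t) (v, p.1, p.2)‖ₑ ^ P) p =
        Reg.indicator (fun _ => (1 : ℝ≥0∞)) p * F (Sc r s p) := by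
      intro p
      by_cases hp : p ∈ Reg
      · rw [indicator_of_mem hp, indicator_of_mem hp, one_mul, hF]
        simp only [hsum]
      · rw [indicator_of_notMem hp, indicator_of_notMem hp, zero_mul]
    rw [lintegral_congr h1, hJ2]
    simp only [zero_add, hLL]
    refine mul_le_mul_right ?_ _
    have hFm : Measurable F := by
      rw [hF]
      refine Measurable.pow_const (Measurable.enorm ?_) _
      refine Finset.measurable_fun_sum T fun t ht => ?_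
      have h2 : FI (g t) = fun z => TF (G t) (v, (Sc r⁻¹ s⁻¹ z).1, (Sc r⁻¹ s⁻¹ z).2) := by
        funext z
        rw [hform t ht, hLL]
      show Measurable (FI (g t))
      rw [h2]
      have h3 := (hSCH m (G t) (hTC t ht)).1
      have h4 : Continuous (fun z : X m => (v, (Sc r⁻¹ s⁻¹ z).1, (Sc r⁻¹ s⁻¹ z).2)) := by
        simp only [Sc_apply]
        fun_prop
      exact (h3.comp h4).measurable
    refine (lintegral_mono hcov).trans (le_of_eq ?_)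
    rw [lintegral_finsetSum _ fun q _ => hFm.indicator (hRQm q)]
    exact Finset.sum_congr rfl fun q _ => lintegral_indicator (hRQm q) F
  -- the right side
  set B : ι → ℝ≥0∞ := fun t => ∫⁻ z : X m, ‖FI (g t) z‖ₑ ^ P *
    W2 N (K⁻¹ ^ 2 • Sc r⁻¹ s⁻¹ z - x) with hB
  have hRHS : ∀ t ∈ T, ∫⁻ p : X m, ‖TF (G t) (v, p.1, p.2)‖ₑ ^ P * W2 N (K⁻¹ ^ 2 • p - x) =
      ENNReal.ofReal J' * B t := by
    intro t ht
    simp only [hform t ht]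
    rw [hJ2]
    simp only [zero_add, hLL]
    rfl
  have hq : ∀ q ∈ Q, ∫⁻ z in RQ q, F z ≤ ENNReal.ofReal (C1 ^ P * 2 ^ ε * K ^ ε) *
      (ENNReal.ofReal (257 ^ N) * (∑ t ∈ T, B t ^ (2 / P)) ^ (P / 2)) := by
    intro q hq
    refine (hLoc' (x0 + (4 : ℝ) ^ a • q)).trans ?_
    refine mul_le_mul' ?_ ?_
    · rw [ENNReal.ofReal_rpow_of_nonneg (by positivity) hP0.le]
      apply ENNReal.ofReal_le_ofReal
      rw [Real.mul_rpow hC1.le (by positivity), ← Real.rpow_mul (by norm_num)]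
      have e1 : ε / P * a * P = a * ε := by field_simp
      rw [e1, Real.rpow_mul (by norm_num), Real.rpow_natCast, mul_assoc (C1 ^ P)]
      refine mul_le_mul_of_nonneg_left ?_ (by positivity)
      rw [← Real.mul_rpow (by norm_num) hK0.le]
      exact Real.rpow_le_rpow h2a.le haK2 hε.le
    · rw [scale_sum T hP]
      refine ENNReal.rpow_le_rpow (Finset.sum_le_sum fun t _ => ENNReal.rpow_le_rpow ?_
        (by positivity)) (by positivity)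
      rw [hB]
      simp only
      rw [← lintegral_const_mul' _ _ ENNReal.ofReal_ne_top]
      refine lintegral_mono fun z => ?_
      have h4 : z - (x0 + (4 : ℝ) ^ a • q) = (4 : ℝ) ^ a • (((4 : ℝ) ^ a)⁻¹ • (z - x0) - q) := by
        rw [smul_sub, smul_smul, mul_inv_cancel₀ h4a0.ne', one_smul]; abel
      have h5 : ‖K⁻¹ ^ 2 • Sc r⁻¹ s⁻¹ z - x‖ ≤ 8 * ‖((4 : ℝ) ^ a)⁻¹ • (z - x0)‖ := by
        have h6 : K⁻¹ ^ 2 • Sc r⁻¹ s⁻¹ z - x = (K⁻¹ ^ 2 * 4 ^ a) •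
            Sc r⁻¹ s⁻¹ (((4 : ℝ) ^ a)⁻¹ • (z - x0)) := by
          rw [map_smul, smul_smul, mul_assoc, mul_inv_cancel₀ h4a0.ne', mul_one, map_sub, hx0,
            hLL', smul_sub, smul_smul, mul_comm (K⁻¹ ^ 2), hK2, one_smul]
        rw [h6, norm_smul, Real.norm_of_nonneg (by positivity)]
        have h7 : K⁻¹ ^ 2 * 4 ^ a ≤ 4 := by
          calc K⁻¹ ^ 2 * 4 ^ a ≤ K⁻¹ ^ 2 * (4 * K ^ 2) := by gcongr
            _ = 4 := by field_simp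
        calc K⁻¹ ^ 2 * 4 ^ a * ‖Sc r⁻¹ s⁻¹ (((4 : ℝ) ^ a)⁻¹ • (z - x0))‖
            ≤ 4 * (2 * ‖((4 : ℝ) ^ a)⁻¹ • (z - x0)‖) := by
              gcongr
              exact norm_Sc_le hrs3 hrs4 _
          _ = _ := by ring
      have h8 := wt_le (m := m) N h4a0 (((4 : ℝ) ^ a)⁻¹ • (z - x0)) q _ (hQ32 q hq) h5
      rw [← h4] at h8
      calc _ ≤ ‖FI (g t) z‖ₑ ^ P * (ENNReal.ofReal (257 ^ N) *
            W2 N (K⁻¹ ^ 2 • Sc r⁻¹ s⁻¹ z - x)) := mul_le_mul_right h8 _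
        _ = _ := by ring
  calc ∫⁻ p in Reg, ‖∑ t ∈ T, TF (G t) (v, p.1, p.2)‖ₑ ^ P
      ≤ ENNReal.ofReal J' * ∑ q ∈ Q, ∫⁻ z in RQ q, F z := hLHS
    _ ≤ ENNReal.ofReal J' * ∑ q ∈ Q, (ENNReal.ofReal (C1 ^ P * 2 ^ ε * K ^ ε) *
      (ENNReal.ofReal (257 ^ N) * (∑ t ∈ T, B t ^ (2 / P)) ^ (P / 2))) :=
        mul_le_mul_right (Finset.sum_le_sum hq) _
    _ = (Q.card * ENNReal.ofReal (C1 ^ P * 2 ^ ε * K ^ ε) * ENNReal.ofReal (257 ^ N)) *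
        (ENNReal.ofReal J' * (∑ t ∈ T, B t ^ (2 / P)) ^ (P / 2)) := by
        rw [Finset.sum_const, nsmul_eq_mul]; ring
    _ ≤ ENNReal.ofReal (C * K ^ ε) *
        (ENNReal.ofReal J' * (∑ t ∈ T, B t ^ (2 / P)) ^ (P / 2)) := by
        refine mul_le_mul_left ?_ _
        have hq0 : (0 : ℝ) ≤ Q.card := Nat.cast_nonneg _
        have hq1 : (0 : ℝ) ≤ Q.card * (C1 ^ P * 2 ^ ε * K ^ ε) :=
          mul_nonneg hq0 (mul_nonneg (mul_nonneg (Real.rpow_nonneg hC1.le _)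
            (Real.rpow_nonneg (by norm_num) _)) (Real.rpow_nonneg hK0.le _))
        rw [← ENNReal.ofReal_natCast, ← ENNReal.ofReal_mul hq0, ← ENNReal.ofReal_mul hq1]
        apply ENNReal.ofReal_le_ofReal
        rw [hC]
        have h9 : (Q.card : ℝ) ≤ Q.card + 1 := by linarith
        calc (Q.card : ℝ) * (C1 ^ P * 2 ^ ε * K ^ ε) * 257 ^ N
            ≤ ((Q.card : ℝ) + 1) * (C1 ^ P * 2 ^ ε * K ^ ε) * 257 ^ N := by gcongr
          _ = _ := by ring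
    _ = _ := by
        rw [scale_sum T hP]
        congr 2
        refine Finset.sum_congr rfl fun t ht => ?_
        rw [hRHS t ht]

lemma W2_le {m : ℕ} (N : ℕ) (u : ℝ) (p : X m) (hu : |u| ≤ 1) :
    W2 N p ≤ ENNReal.ofReal (2 ^ N) *
      ENNReal.ofReal (Pool.Agent.H83.G.wt N ((u, p) : Z m)) := by
  unfold W2 Pool.Agent.H83.G.wt
  rw [← ENNReal.ofReal_mul (by positivity)]
  apply ENNReal.ofReal_le_ofReal
  have h0 : ‖((u, p) : Z m)‖ = max |u| ‖p‖ := rfl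
  have h1 : 1 + ‖((u, p) : Z m)‖ ≤ 2 * (1 + ‖p‖) := by
    rw [h0]
    have := max_le (hu.trans (by linarith [norm_nonneg p] : (1 : ℝ) ≤ 1 + ‖p‖))
      (by linarith : ‖p‖ ≤ 1 + ‖p‖)
    linarith [norm_nonneg p]
  have h2 : (0 : ℝ) < (1 + ‖((u, p) : Z m)‖) ^ N := by positivity
  have h3 : (0 : ℝ) < (1 + ‖p‖) ^ N := by positivity
  rw [← div_eq_mul_inv, inv_eq_one_div, div_le_div_iff₀ h3 h2, one_mul, ← mul_pow]
  exact pow_le_pow_left₀ (by positivity) h1 N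

/-- BDZ from the local decoupling theorem for the paraboloid -/
theorem pf_BDZ (hMAIN : Pool.Agent.H93.BD.T_MAIN) (hSCH : T_SCH) : T_BDZ := by
  intro m N P ε D _ hP hmP hε hD
  have hP0 : 0 < P := by linarith
  obtain ⟨C, hC, hfix⟩ := fixv hMAIN hSCH m N P ε D hP hmP hε hD
  refine ⟨C * 2 ^ N, by positivity, ?_⟩
  intro K a₀ ι T c G x hK ha₀ ha₀' hc hm hTC hsupp
  have hK0 : 0 < K := by linarith
  have hcont : ∀ t ∈ T, Continuous (TF (G t)) := fun t ht => (hSCH m (G t) (hTC t ht)).1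
  set V : Set ℝ := {v : ℝ | |K⁻¹ ^ 2 * v - x.1| ≤ 1} with hV
  set Reg : Set (X m) := {p : X m | ‖K⁻¹ ^ 2 • p - x.2‖ ≤ 1} with hReg
  have hVm : MeasurableSet V := measurableSet_le (by fun_prop) measurable_const
  have hRm : MeasurableSet Reg := measurableSet_le (by fun_prop) measurable_const
  have hset : {z : Z m | ‖K⁻¹ ^ 2 • z - x‖ ≤ 1} = V ×ˢ Reg := by
    ext z
    have h0 : ‖K⁻¹ ^ 2 • z - x‖ = max |K⁻¹ ^ 2 * z.1 - x.1| ‖K⁻¹ ^ 2 • z.2 - x.2‖ := rfl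
    simp only [mem_setOf_eq, mem_prod, hV, hReg, h0, max_le_iff]
  have hF : Measurable fun z : Z m => ‖∑ t ∈ T, TF (G t) z‖ₑ ^ P := by
    refine Measurable.pow_const (Measurable.enorm ?_) _
    exact Finset.measurable_fun_sum T fun t ht => (hcont t ht).measurable
  have hW : Measurable fun p : X m => W2 N (K⁻¹ ^ 2 • p - x.2) := by
    unfold W2
    refine ENNReal.measurable_ofReal.comp ?_
    have : Measurable fun p : X m => (1 + ‖K⁻¹ ^ 2 • p - x.2‖) ^ N := by fun_prop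
    exact this.inv
  have hU : ∀ t ∈ T, Measurable fun v : ℝ => ∫⁻ p : X m, ‖TF (G t) (v, p.1, p.2)‖ₑ ^ P *
      W2 N (K⁻¹ ^ 2 • p - x.2) := by
    intro t ht
    have h1 : Measurable fun q : ℝ × X m => ‖TF (G t) (q.1, q.2.1, q.2.2)‖ₑ ^ P *
        W2 N (K⁻¹ ^ 2 • q.2 - x.2) := by
      refine Measurable.mul ((hcont t ht).measurable.enorm.pow_const P) ?_
      exact hW.comp measurable_snd
    exact h1.lintegral_prod_right'
  rw [hset, Measure.volume_eq_prod, ← Measure.prod_restrict,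
    lintegral_prod _ hF.aemeasurable]
  have h1 : ∀ v, ∫⁻ p in Reg, ‖∑ t ∈ T, TF (G t) (v, p)‖ₑ ^ P ≤
      ENNReal.ofReal (C * K ^ ε) * (∑ t ∈ T, (∫⁻ p : X m, ‖TF (G t) (v, p.1, p.2)‖ₑ ^ P *
        W2 N (K⁻¹ ^ 2 • p - x.2)) ^ (2 / P)) ^ (P / 2) := fun v =>
    hfix K a₀ ι T c G x.2 v hK ha₀ ha₀' hc hm hTC hsupp
  refine (lintegral_mono h1).trans ?_
  rw [lintegral_const_mul' _ _ ENNReal.ofReal_ne_top]
  have h2 := Pool.Agent.H18.BD.BG.mink2 (volume.restrict V) T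
    (fun t v => ∫⁻ p : X m, ‖TF (G t) (v, p.1, p.2)‖ₑ ^ P * W2 N (K⁻¹ ^ 2 • p - x.2)) hU hP
  refine (mul_le_mul_right h2 _).trans ?_
  have h3 : ∀ t ∈ T, ∫⁻ v in V, ∫⁻ p : X m, ‖TF (G t) (v, p.1, p.2)‖ₑ ^ P *
      W2 N (K⁻¹ ^ 2 • p - x.2) ≤ ENNReal.ofReal (2 ^ N) * ∫⁻ z : Z m, ‖TF (G t) z‖ₑ ^ P *
        ENNReal.ofReal (Pool.Agent.H83.G.wt N (K⁻¹ ^ 2 • z - x)) := by
    intro t ht
    have hwm : Measurable fun z : Z m =>
        ENNReal.ofReal (Pool.Agent.H83.G.wt N (K⁻¹ ^ 2 • z - x)) := by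
      unfold Pool.Agent.H83.G.wt
      refine ENNReal.measurable_ofReal.comp ?_
      have : Measurable fun p : Z m => (1 + ‖K⁻¹ ^ 2 • p - x‖) ^ N := by fun_prop
      exact this.inv
    have hm1 : Measurable fun z : Z m => ‖TF (G t) z‖ₑ ^ P *
        ENNReal.ofReal (Pool.Agent.H83.G.wt N (K⁻¹ ^ 2 • z - x)) :=
      ((hcont t ht).measurable.enorm.pow_const P).mul hwm
    rw [Measure.volume_eq_prod (α := ℝ) (β := X m), lintegral_prod _ hm1.aemeasurable,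
      ← lintegral_const_mul' _ _ ENNReal.ofReal_ne_top]
    refine le_trans ?_ (setLIntegral_le_lintegral V _)
    refine setLIntegral_mono' hVm fun v hv => ?_
    rw [← lintegral_const_mul' _ _ ENNReal.ofReal_ne_top]
    refine lintegral_mono fun p => ?_
    have h4 := W2_le (m := m) N (K⁻¹ ^ 2 * v - x.1) (K⁻¹ ^ 2 • p - x.2) hv
    calc _ ≤ ‖TF (G t) (v, p.1, p.2)‖ₑ ^ P * (ENNReal.ofReal (2 ^ N) * ENNReal.ofReal
          (Pool.Agent.H83.G.wt N ((K⁻¹ ^ 2 * v - x.1, K⁻¹ ^ 2 • p - x.2) : Z m))) :=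
            mul_le_mul_right h4 _
      _ = ENNReal.ofReal (2 ^ N) * (‖TF (G t) (v, p.1, p.2)‖ₑ ^ P * ENNReal.ofReal
          (Pool.Agent.H83.G.wt N ((K⁻¹ ^ 2 * v - x.1, K⁻¹ ^ 2 • p - x.2) : Z m))) := by ring
      _ = _ := rfl
  calc _ ≤ ENNReal.ofReal (C * K ^ ε) * (∑ t ∈ T, (ENNReal.ofReal (2 ^ N) *
        ∫⁻ z : Z m, ‖TF (G t) z‖ₑ ^ P *
        ENNReal.ofReal (Pool.Agent.H83.G.wt N (K⁻¹ ^ 2 • z - x))) ^ (2 / P)) ^ (P / 2) := by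
        refine mul_le_mul_right (ENNReal.rpow_le_rpow (Finset.sum_le_sum fun t ht =>
          ENNReal.rpow_le_rpow (h3 t ht) (by positivity)) (by positivity)) _
    _ = _ := by
        rw [← scale_sum T hP, ← mul_assoc, ← ENNReal.ofReal_mul (by positivity)]
        congr 2
        ring

end Pool.Agent.H93.G.BDZ
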